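import Pool.Agent.Lib.MP_3dbc4a_an_WW.Transit

/-!
# MP_3dbc4a_an, project W, block W: the wandering domain
-/

set_option autoImplicit false

open Filter Set
open scoped Topology

namespace Pool.Agent.WildW

/-- The orbit as a solution of the second order recursion: `orbY z n` is the first coordinate of
`f^n z` for `n ≥ 0` and the second coordinate of `z` for `n < 0`. -/
noncomputable def orbY (F : Fam) (a : Fin 8 → ℝ) (z : ℝ × ℝ) : ℤ → ℝ
  | Int.ofNat n => ((F.map a)^[n] z).1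
  | Int.negSucc _ => z.2

private theorem orbY_nat (F : Fam) (a : Fin 8 → ℝ) (z : ℝ × ℝ) (n : ℕ) :
    orbY F a z n = ((F.map a)^[n] z).1 := rfl

theorem orbY_pair (F : Fam) (a : Fin 8 → ℝ) (z : ℝ × ℝ) (n : ℕ) :
    (F.map a)^[n] z = (orbY F a z n, orbY F a z ((n : ℤ) - 1)) := by
  cases n with
  | zero => rfl
  | succ n =>
    have h1 : (((n + 1 : ℕ) : ℤ) - 1) = (n : ℤ) := by push_cast; ring
    rw [h1, orbY_nat, orbY_nat]
    refine Prod.ext rfl ?_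
    rw [Function.iterate_succ_apply']
    rfl

theorem orbY_rec (F : Fam) (a : Fin 8 → ℝ) (z : ℝ × ℝ) {n : ℤ} (hn : 0 ≤ n) :
    orbY F a z (n + 1) = F.P a (orbY F a z n) - b * orbY F a z (n - 1) := by
  obtain ⟨k, rfl⟩ := Int.eq_ofNat_of_zero_le hn
  have h1 : ((k : ℤ) + 1) = ((k + 1 : ℕ) : ℤ) := by push_cast; rfl
  have h2 := orbY_pair F a z k
  rw [h1, orbY_nat, Function.iterate_succ_apply', h2]
  rfl

private theorem wander_cover {T : ℕ → ℤ} {m : ℕ → ℕ} (hT : ∀ j, T (j + 1) = T j + m j + 1)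
    (J : ℕ) : ∀ (i : ℕ) (k : ℤ), T J ≤ k → k ≤ T (J + i) → ∃ j, J ≤ j ∧ T j ≤ k ∧ k ≤ T (j + 1) := by
  intro i
  induction i with
  | zero =>
    intro k h1 h2
    refine ⟨J, le_rfl, h1, ?_⟩
    have h3 := hT J
    rw [add_zero] at h2
    omega
  | succ i ih =>
    intro k h1 h2
    rcases le_or_gt k (T (J + i)) with h3 | h3
    · exact ih k h1 h3
    · exact ⟨J + i, by omega, h3.le, h2⟩

private theorem wander_ge {T : ℕ → ℤ} {m : ℕ → ℕ} (hT0 : T 0 = 0)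
    (hT : ∀ j, T (j + 1) = T j + m j + 1) (j : ℕ) : (j : ℤ) ≤ T j := by
  induction j with
  | zero => rw [hT0]; exact le_rfl
  | succ j ih =>
    have h1 := hT j
    push_cast
    omega

/-- **W (wandering domain).** `T j` are the fold times, `m j` plain letters between `T j` and
`T (j+1)`, at most `γ j` of them are `g`.
Proof. `D` = the set of `(X, Y)` with `|X - x_0| < 2^(-d 0)` and
`|(Y - x_{-1}) - t_{-1} (X - x_0)| < 2^(-2 d 0)` (open, contains `(x_0, x_{-1})`). For `z ∈ D` put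
`y = orbY z`. Induction over `j` with `transit`: `|y_n - x_n| ≤ 2^(-d j) + 2 * 2^(-d (j+1))` for
`T j ≤ n ≤ T (j+1)`, and the two conditions hold at `T (j+1)`. The distance of
`f^n(z) = (y_n, y_{n-1})` from `(x_n, x_{n-1})` tends to `0` (`hdlim`; the intervals
`[T j, T (j+1)]` cover `[0, ∞)` and `T j ≥ j`). -/
theorem wander (F : Fam) {a : Fin 8 → ℝ} (ha : Cube a) {s : ℤ → Lt} (hs : Adm (symOf s))
    {T : ℕ → ℤ} {d m γ : ℕ → ℕ} (hT0 : T 0 = 0) (hT : ∀ j, T (j + 1) = T j + m j + 1)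
    (hfold : ∀ j, ∃ i, s (T j) = .d i)
    (hpl : ∀ j n, T j < n → n < T (j + 1) → ∃ c, s n = .p c)
    (hg : ∀ j, ((Finset.Ioo (T j) (T (j + 1))).filter (fun n => s n = .p .g)).card ≤ γ j)
    (hPhi : ∀ j, |Phi F a (symOf s) (T j)| ≤ (1 / 2 ^ d j) ^ 2)
    (hC1 : ∀ j, 22 + 21 * m j + 101 * γ j + d (j + 1) ≤ 2 * d j)
    (hC2 : ∀ j, 2 * d (j + 1) + 2 ≤ 119 * m j + d j)
    (hd : ∀ j, 130 ≤ d j) (hdlim : Tendsto d atTop atTop) :
    ∃ D : Set (ℝ × ℝ), IsOpen D ∧ D.Nonempty ∧ ∀ z ∈ D,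
      Tendsto (fun n : ℕ => dist ((F.map a)^[n] z)
        (xs F a (symOf s) n, xs F a (symOf s) ((n : ℤ) - 1))) atTop (𝓝 0) := by
  set x := xs F a (symOf s) with hx
  set t := ts F a (symOf s) with ht
  refine ⟨{z | |z.1 - x 0| < 1 / 2 ^ d 0} ∩
    {z | |(z.2 - x (-1)) - t (-1) * (z.1 - x 0)| < (1 / 2 ^ d 0) ^ 2}, ?_, ?_, ?_⟩
  · exact (isOpen_lt (by fun_prop) continuous_const).inter
      (isOpen_lt (by fun_prop) continuous_const)
  · refine ⟨(x 0, x (-1)), ?_, ?_⟩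
    · show |x 0 - x 0| < 1 / 2 ^ d 0
      rw [sub_self, abs_zero]
      positivity
    · show |(x (-1) - x (-1)) - t (-1) * (x 0 - x 0)| < (1 / 2 ^ d 0) ^ 2
      rw [sub_self, sub_self, mul_zero, sub_zero, abs_zero]
      positivity
  rintro z ⟨hz1, hz2⟩
  replace hz1 : |z.1 - x 0| < 1 / 2 ^ d 0 := hz1
  replace hz2 : |(z.2 - x (-1)) - t (-1) * (z.1 - x 0)| < (1 / 2 ^ d 0) ^ 2 := hz2
  set y := orbY F a z with hy
  have hTj : ∀ j : ℕ, (0 : ℤ) ≤ T j := fun j =>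
    (Int.natCast_nonneg j).trans (wander_ge hT0 hT j)
  have hrec : ∀ j : ℕ, ∀ n, T j ≤ n → n < T j + m j + 1 →
      y (n + 1) = F.P a (y n) - b * y (n - 1) := fun j n hn _ =>
    orbY_rec F a z ((hTj j).trans hn)
  have hstep : ∀ j, (|y (T j) - x (T j)| ≤ 1 / 2 ^ d j ∧
      |(y (T j - 1) - x (T j - 1)) - t (T j - 1) * (y (T j) - x (T j))| ≤ (1 / 2 ^ d j) ^ 2) →
      (|y (T (j + 1)) - x (T (j + 1))| ≤ 1 / 2 ^ d (j + 1) ∧
        |(y (T (j + 1) - 1) - x (T (j + 1) - 1)) - t (T (j + 1) - 1) *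
          (y (T (j + 1)) - x (T (j + 1)))| ≤ (1 / 2 ^ d (j + 1)) ^ 2) ∧
      ∀ n, T j ≤ n → n ≤ T (j + 1) → |y n - x n| ≤ 1 / 2 ^ d j + 2 / 2 ^ d (j + 1) := by
    rintro j ⟨h1, h2⟩
    obtain ⟨i, hi⟩ := hfold j
    obtain ⟨i', hi'⟩ := hfold (j + 1)
    have hpl' := hpl j
    have hg' := hg j
    rw [hT j] at hi' hpl' hg' ⊢
    obtain ⟨g1, g2, g3⟩ := transit F ha hs hi hi' hpl' hg' (hPhi j) (hC1 j) (hC2 j) (hd j)
      (hd (j + 1)) (hrec j) h1 h2
    have e1 : T j + m j + 1 - 1 = T j + m j := by ring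
    rw [e1]
    exact ⟨⟨g1, g2⟩, g3⟩
  have hall : ∀ j, |y (T j) - x (T j)| ≤ 1 / 2 ^ d j ∧
      |(y (T j - 1) - x (T j - 1)) - t (T j - 1) * (y (T j) - x (T j))| ≤ (1 / 2 ^ d j) ^ 2 := by
    intro j
    induction j with
    | zero =>
      rw [hT0]
      exact ⟨hz1.le, hz2.le⟩
    | succ j ih => exact (hstep j ih).1
  have hmid : ∀ j n, T j ≤ n → n ≤ T (j + 1) →
      |y n - x n| ≤ 1 / 2 ^ d j + 2 / 2 ^ d (j + 1) := fun j => (hstep j (hall j)).2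
  -- the limit
  have hlim0 : Tendsto (fun j => (1 : ℝ) / 2 ^ d j) atTop (𝓝 0) := by
    have h1 := (tendsto_pow_atTop_nhds_zero_of_lt_one (r := (1 : ℝ) / 2) (by norm_num)
      (by norm_num)).comp hdlim
    refine h1.congr fun j => ?_
    rw [Function.comp_apply, one_div_pow]
  have hlim : Tendsto (fun j => (1 : ℝ) / 2 ^ d j + 2 / 2 ^ d (j + 1)) atTop (𝓝 0) := by
    have h1 : Tendsto (fun j => (1 : ℝ) / 2 ^ d (j + 1)) atTop (𝓝 0) :=
      hlim0.comp (tendsto_add_atTop_nat 1)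
    have h2 := hlim0.add (h1.const_mul 2)
    rw [mul_zero, add_zero] at h2
    refine h2.congr fun j => ?_
    ring
  rw [Metric.tendsto_atTop]
  intro ε hε
  obtain ⟨J, hJ⟩ := eventually_atTop.1 ((tendsto_order.1 hlim).2 ε hε)
  have hfar : ∀ k : ℤ, T J ≤ k → |y k - x k| < ε := by
    intro k hk
    have hk0 : 0 ≤ k := (hTj J).trans hk
    obtain ⟨j, hj1, hj2, hj3⟩ := wander_cover hT J k.toNat k hk (by
      have h1 := wander_ge hT0 hT (J + k.toNat)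
      push_cast at h1
      omega)
    exact (hmid j k hj2 hj3).trans_lt (hJ j hj1)
  refine ⟨(T J).toNat + 1, fun n hn => ?_⟩
  rw [Real.dist_eq, sub_zero, abs_of_nonneg dist_nonneg, orbY_pair F a z n]
  have hTJ := hTj J
  refine max_lt ?_ ?_
  · rw [Real.dist_eq]
    exact hfar n (by omega)
  · rw [Real.dist_eq]
    exact hfar ((n : ℤ) - 1) (by omega)

end Pool.Agent.WildW
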