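import Pool.Agent.Lib.MP_3dbc4a_an_W.Defs

/-!
# MP_3dbc4a_an, project W, block W: the data of one transit
-/

set_option autoImplicit false

open Filter Set
open scoped Topology

namespace Pool.Agent.WildW

/-- `A_k = 2^21 δ² ∏_{1 ≤ i < k} 1/ρ_i` (for `k ≥ 1`) -/
noncomputable def trA (δ : ℝ) (ρ : ℕ → ℝ) (k : ℕ) : ℝ :=
  2 ^ 21 * δ ^ 2 * ∏ i ∈ Finset.range (k - 1), 1 / ρ (i + 1)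

/-- Data of one transit, indexed by `k = n - t0 ∈ [0, m + 1]`: `U k = u_n`, `G k = g_n`,
`V k = v_n`, `Q k = q_n`, `ρ k = r_n`, `θ k = t_n`. -/
structure Tr (m : ℕ) (δ δ' : ℝ) (U G V Q ρ θ : ℕ → ℝ) : Prop where
  d0 : 0 < δ
  d1 : δ ≤ 1 / 2 ^ 130
  e0 : 0 < δ'
  e1 : δ' ≤ 1 / 2 ^ 130
  rpos : ∀ k, 1 ≤ k → k ≤ m → 0 < ρ k
  rb : ∀ k, k ≤ m + 1 → 0 ≤ ρ k ∧ ρ k ≤ 1 / 2 ^ 19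
  tb : ∀ k, k ≤ m → 0 ≤ θ k ∧ θ k ≤ 1 / 2 ^ 19
  rlast : ρ (m + 1) = 0
  gU : ∀ k, k ≤ m → G (k + 1) = U (k + 1) - b * ρ (k + 1) * U k
  gG : ∀ k, 1 ≤ k → k ≤ m → G (k + 1) = G k / ρ k + Q k
  vV : ∀ k, 1 ≤ k → k ≤ m → V (k + 1) = θ k * (b * V k - Q k)
  qQ : ∀ k, 1 ≤ k → k ≤ m → |U k| ≤ h → |Q k| ≤ eps / 2 * U k ^ 2
  U0 : |U 0| ≤ δ
  G1 : |G 1| ≤ 2 ^ 21 * δ ^ 2
  V1 : V 1 = U 0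
  prod : 2 * trA δ ρ (m + 1) ≤ δ'
  C2 : 4 * (1 / 2 ^ 119) ^ m * δ ≤ δ' ^ 2

end Pool.Agent.WildW
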