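import Pool.Agent.Lib.MP_3dbc4a_an_WP.Num
import Pool.Agent.Lib.MP_3dbc4a_an_WW.TrDef

/-!
# MP_3dbc4a_an, project W, block W: the bounds of `G` and `U` in one transit
-/

set_option autoImplicit false

open Filter Set
open scoped Topology

namespace Pool.Agent.WildW

variable {m : ℕ} {δ δ' : ℝ} {U G V Q ρ θ : ℕ → ℝ}

theorem Tr.A_one (δ : ℝ) (ρ : ℕ → ℝ) : trA δ ρ 1 = 2 ^ 21 * δ ^ 2 := by
  simp [trA]

/-- `A_{k+1} = A_k / ρ_k` -/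
theorem Tr.A_succ (δ : ℝ) (ρ : ℕ → ℝ) {k : ℕ} (hk : 1 ≤ k) :
    trA δ ρ (k + 1) = trA δ ρ k / ρ k := by
  obtain ⟨j, rfl⟩ : ∃ j, k = j + 1 := ⟨k - 1, by omega⟩
  simp only [trA, Nat.add_sub_cancel, Finset.prod_range_succ]
  ring

theorem Tr.A_pos (h : Tr m δ δ' U G V Q ρ θ) {k : ℕ} (hk : 1 ≤ k) (hk' : k ≤ m + 1) :
    0 < trA δ ρ k := by
  rw [trA]
  have h1 := h.d0
  have h2 : 0 < ∏ i ∈ Finset.range (k - 1), 1 / ρ (i + 1) := by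
    refine Finset.prod_pos fun i hi => ?_
    rw [Finset.mem_range] at hi
    exact one_div_pos.2 (h.rpos (i + 1) (by omega) (by omega))
  positivity

/-- `2^19 A_k ≤ A_{k+1}` -/
theorem Tr.A_grow (h : Tr m δ δ' U G V Q ρ θ) {k : ℕ} (hk : 1 ≤ k) (hk' : k ≤ m) :
    2 ^ 19 * trA δ ρ k ≤ trA δ ρ (k + 1) := by
  have h1 := h.A_pos hk (by omega)
  have h2 := h.rpos k hk hk'
  have h3 := (h.rb k (by omega)).2
  rw [Tr.A_succ δ ρ hk, le_div_iff₀ h2]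
  calc 2 ^ 19 * trA δ ρ k * ρ k ≤ 2 ^ 19 * trA δ ρ k * (1 / 2 ^ 19) :=
        mul_le_mul_of_nonneg_left h3 (by positivity)
    _ = trA δ ρ k := by ring

private theorem core_mono (h : Tr m δ δ' U G V Q ρ θ) {j : ℕ} (hj : 1 ≤ j) {k : ℕ}
    (hjk : j ≤ k) : k ≤ m + 1 → trA δ ρ j ≤ trA δ ρ k := by
  induction k, hjk using Nat.le_induction with
  | base => intro _; exact le_rfl
  | succ k hk ih =>
    intro hk'
    have h1 := ih (by omega)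
    have h2 := h.A_grow (k := k) (by omega) (by omega)
    have h3 := h.A_pos (k := k) (by omega) (by omega)
    have h4 : trA δ ρ k ≤ 2 ^ 19 * trA δ ρ k := by
      have : (1 : ℝ) ≤ 2 ^ 19 := by norm_num
      nlinarith
    linarith

/-- `A_k ≤ δ'/2` and `2^21 δ² ≤ A_k` (monotonicity and the condition `prod`) -/
theorem Tr.A_le (h : Tr m δ δ' U G V Q ρ θ) {k : ℕ} (hk : 1 ≤ k) (hk' : k ≤ m + 1) :
    trA δ ρ k ≤ δ' / 2 ∧ 2 ^ 21 * δ ^ 2 ≤ trA δ ρ k := by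
  constructor
  · have h1 := core_mono h hk hk' le_rfl
    have h2 := h.prod
    linarith
  · have h1 := core_mono h le_rfl hk hk'
    rwa [Tr.A_one] at h1

private theorem core_eps : 4 * eps ≤ 1 / 2 ∧ 9 * eps ≤ 1 / 2 ∧ 0 ≤ eps := by
  have h1 := eps_le_b
  have h2 := b_pos
  have h3 := eps_pos
  have h4 : b / 2 ^ 800 ≤ b := div_le_self h2.le (one_le_pow₀ one_le_two)
  have h5 : b ≤ 1 / 100 := by
    rw [b_eq]
    norm_num
  refine ⟨by linarith, by linarith, h3.le⟩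

private theorem core_brho {r : ℝ} (h0 : 0 ≤ r) (h1 : r ≤ 1 / 2 ^ 19) {u : ℝ} :
    |b * r * u| ≤ 1 / 2 ^ 119 * |u| := by
  have hb := b_pos
  rw [abs_mul, abs_of_nonneg (mul_nonneg hb.le h0)]
  refine mul_le_mul_of_nonneg_right ?_ (abs_nonneg _)
  calc b * r ≤ b * (1 / 2 ^ 19) := mul_le_mul_of_nonneg_left h1 hb.le
    _ = 1 / 2 ^ 119 := by rw [b_eq]; norm_num

private theorem core_small (h : Tr m δ δ' U G V Q ρ θ) {k : ℕ} (hk : 1 ≤ k) :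
    (1 / 2 ^ 119) ^ k * δ ≤ 1 / 2 ^ 119 * δ := by
  refine mul_le_mul_of_nonneg_right ?_ h.d0.le
  have h1 := pow_le_pow_of_le_one (a := (1 : ℝ) / 2 ^ 119) (by norm_num) (by norm_num) hk
  rwa [pow_one] at h1

private theorem core_h (h : Tr m δ δ' U G V Q ρ θ) {k : ℕ} (hk : 1 ≤ k) (hk' : k ≤ m + 1)
    (hU : |U k| ≤ 3 * trA δ ρ k + 2 * (1 / 2 ^ 119) ^ k * δ) : |U k| ≤ WildW.h := by
  have h1 := (h.A_le hk hk').1
  have h2 := core_small h hk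
  have h3 := h.d0
  have h4 := h.d1
  have h5 := h.e1
  have h6 := h_lo
  have h7 : (1 : ℝ) / 2 ^ 119 * δ ≤ δ := by
    have : (1 : ℝ) / 2 ^ 119 ≤ 1 := by norm_num
    nlinarith
  have h8 : (4 : ℝ) * (1 / 2 ^ 130) ≤ 1 / 2 ^ 121 := by norm_num
  linarith

private theorem core_Q (h : Tr m δ δ' U G V Q ρ θ) {k : ℕ} (hk : 1 ≤ k) (hk' : k ≤ m)
    (hU : |U k| ≤ 3 * trA δ ρ k + 2 * (1 / 2 ^ 119) ^ k * δ) :
    |Q k| ≤ eps * (9 * trA δ ρ k ^ 2 + 4 * ((1 / 2 ^ 119) ^ k * δ) ^ 2) := by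
  have h1 := h.qQ k hk hk' (core_h h hk (by omega) hU)
  have h2 := h.A_pos hk (by omega)
  have h3 : 0 ≤ (1 / 2 ^ 119) ^ k * δ := mul_nonneg (by positivity) h.d0.le
  have h4 : U k ^ 2 ≤ (3 * trA δ ρ k + 2 * ((1 / 2 ^ 119) ^ k * δ)) ^ 2 := by
    rw [← sq_abs (U k)]
    refine pow_le_pow_left₀ (abs_nonneg _) ?_ 2
    linarith
  have h5 := core_eps.2.2
  generalize (1 / 2 ^ 119) ^ k * δ = x at h3 h4 ⊢
  have h6 : (3 * trA δ ρ k + 2 * x) ^ 2 ≤ 2 * (9 * trA δ ρ k ^ 2 + 4 * x ^ 2) := by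
    nlinarith [sq_nonneg (3 * trA δ ρ k - 2 * x)]
  calc |Q k| ≤ eps / 2 * U k ^ 2 := h1
    _ ≤ eps / 2 * (2 * (9 * trA δ ρ k ^ 2 + 4 * x ^ 2)) :=
        mul_le_mul_of_nonneg_left (h4.trans h6) (by linarith)
    _ = eps * (9 * trA δ ρ k ^ 2 + 4 * x ^ 2) := by ring

private theorem core_half (h : Tr m δ δ' U G V Q ρ θ) {k : ℕ} (hk : 1 ≤ k) (hk' : k ≤ m + 1) :
    trA δ ρ k ^ 2 ≤ 1 / 2 * trA δ ρ k := by
  have h1 := h.A_pos hk hk'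
  have h2 := (h.A_le hk hk').1
  have h3 := h.e1
  have h4 : (1 : ℝ) / 2 ^ 130 ≤ 1 := by norm_num
  have h5 : trA δ ρ k ≤ 1 / 2 := by linarith
  nlinarith

private theorem core_main (h : Tr m δ δ' U G V Q ρ θ) {k : ℕ} (hk : 1 ≤ k) :
    k ≤ m + 1 → |G k| ≤ (3 / 2 - (1 / 2) ^ k) * trA δ ρ k + trA δ ρ k ^ 2 ∧
      |U k| ≤ 3 * trA δ ρ k + 2 * (1 / 2 ^ 119) ^ k * δ := by
  induction k, hk using Nat.le_induction with
  | base =>
    intro hk'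
    have h1 := h.A_pos le_rfl hk'
    have h2 := h.G1
    have h3 := h.gU 0 (by omega)
    have h4 := h.rb 1 (by omega)
    have h5 := core_brho h4.1 h4.2 (u := U 0)
    have h6 := h.U0
    rw [zero_add] at h3
    rw [Tr.A_one] at h1 ⊢
    have h7 : |U 1| ≤ |G 1| + |b * ρ 1 * U 0| := by
      calc |U 1| = |G 1 + b * ρ 1 * U 0| := by rw [h3]; ring_nf
        _ ≤ |G 1| + |b * ρ 1 * U 0| := abs_add_le _ _
    have h8 : (1 : ℝ) / 2 ^ 119 * |U 0| ≤ 1 / 2 ^ 119 * δ :=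
      mul_le_mul_of_nonneg_left h6 (by positivity)
    have h9 : (0 : ℝ) ≤ 1 / 2 ^ 119 * δ := mul_nonneg (by positivity) h.d0.le
    constructor
    · rw [pow_one]
      have := sq_nonneg (2 ^ 21 * δ ^ 2)
      linarith
    · rw [pow_one]
      linarith
  | succ k hk ih =>
    intro hk'
    obtain ⟨hG, hU⟩ := ih (by omega)
    have hkm : k ≤ m := by omega
    have hA := h.A_pos hk (by omega : k ≤ m + 1)
    have hA1 := h.A_pos (k := k + 1) (by omega) hk'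
    have hgr := h.A_grow hk hkm
    have hr := h.rpos k hk hkm
    have hsucc := Tr.A_succ δ ρ hk
    have hQ := core_Q h hk hkm hU
    have hx0 : 0 ≤ (1 / 2 ^ 119) ^ k * δ := mul_nonneg (by positivity) h.d0.le
    obtain ⟨he1, he2, he0⟩ := core_eps
    -- the small term
    have hx2 : 4 * eps * ((1 / 2 ^ 119) ^ k * δ) ^ 2 ≤ (1 / 2) ^ (k + 1) * trA δ ρ (k + 1) := by
      have e1 : ((1 / 2 ^ 119) ^ k * δ) ^ 2 = ((1 / 2 ^ 119 : ℝ) ^ 2) ^ k * δ ^ 2 := by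
        rw [mul_pow, ← pow_mul, ← pow_mul, mul_comm k 2]
      have e2 : ((1 / 2 ^ 119 : ℝ) ^ 2) ^ k ≤ (1 / 2) ^ k :=
        pow_le_pow_left₀ (by positivity) (by norm_num) k
      have e3 := (h.A_le (k := k + 1) (by omega) hk').2
      have e4 : δ ^ 2 ≤ trA δ ρ (k + 1) := by
        have : 0 ≤ δ ^ 2 := sq_nonneg δ
        have : (1 : ℝ) ≤ 2 ^ 21 := by norm_num
        nlinarith
      rw [e1]
      calc 4 * eps * (((1 / 2 ^ 119 : ℝ) ^ 2) ^ k * δ ^ 2)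
          ≤ 1 / 2 * ((1 / 2) ^ k * trA δ ρ (k + 1)) := by
            refine mul_le_mul he1 ?_ (by positivity) (by norm_num)
            exact mul_le_mul e2 e4 (sq_nonneg _) (by positivity)
        _ = (1 / 2) ^ (k + 1) * trA δ ρ (k + 1) := by rw [pow_succ]; ring
    -- squares
    have hsq : trA δ ρ k ^ 2 / ρ k ≤ 1 / 4 * trA δ ρ (k + 1) ^ 2 := by
      have e1 : trA δ ρ k ^ 2 / ρ k = trA δ ρ k * trA δ ρ (k + 1) := by
        rw [hsucc]; ring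
      have e2 : trA δ ρ k ≤ 1 / 4 * trA δ ρ (k + 1) := by linarith
      rw [e1]
      calc trA δ ρ k * trA δ ρ (k + 1) ≤ 1 / 4 * trA δ ρ (k + 1) * trA δ ρ (k + 1) :=
            mul_le_mul_of_nonneg_right e2 hA1.le
        _ = 1 / 4 * trA δ ρ (k + 1) ^ 2 := by ring
    have hsq2 : trA δ ρ k ^ 2 ≤ trA δ ρ (k + 1) ^ 2 :=
      pow_le_pow_left₀ hA.le (by linarith) 2
    have hG1 : |G (k + 1)| ≤ (3 / 2 - (1 / 2) ^ (k + 1)) * trA δ ρ (k + 1) +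
        trA δ ρ (k + 1) ^ 2 := by
      have e1 : |G (k + 1)| ≤ |G k| / ρ k + |Q k| := by
        rw [h.gG k hk hkm]
        refine (abs_add_le _ _).trans ?_
        rw [abs_div, abs_of_pos hr]
      have e2 : |G k| / ρ k ≤ ((3 / 2 - (1 / 2) ^ k) * trA δ ρ k + trA δ ρ k ^ 2) / ρ k :=
        div_le_div_of_nonneg_right hG hr.le
      have e3 : ((3 / 2 - (1 / 2) ^ k) * trA δ ρ k + trA δ ρ k ^ 2) / ρ k =
          (3 / 2 - (1 / 2) ^ k) * trA δ ρ (k + 1) + trA δ ρ k ^ 2 / ρ k := by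
        rw [hsucc]; ring
      have e4 : eps * (9 * trA δ ρ k ^ 2 + 4 * ((1 / 2 ^ 119) ^ k * δ) ^ 2) =
          9 * eps * trA δ ρ k ^ 2 + 4 * eps * ((1 / 2 ^ 119) ^ k * δ) ^ 2 := by ring
      have e5 : 9 * eps * trA δ ρ k ^ 2 ≤ 1 / 2 * trA δ ρ (k + 1) ^ 2 :=
        mul_le_mul he2 hsq2 (sq_nonneg _) (by norm_num)
      have e6 : ((1 : ℝ) / 2) ^ (k + 1) = 1 / 2 * (1 / 2) ^ k := by rw [pow_succ]; ring
      rw [e6] at hx2 ⊢
      have e7 := sq_nonneg (trA δ ρ (k + 1))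
      linarith
    refine ⟨hG1, ?_⟩
    have h3 := h.gU k hkm
    have h4 := h.rb (k + 1) (by omega)
    have h5 := core_brho h4.1 h4.2 (u := U k)
    have h7 : |U (k + 1)| ≤ |G (k + 1)| + |b * ρ (k + 1) * U k| := by
      calc |U (k + 1)| = |G (k + 1) + b * ρ (k + 1) * U k| := by rw [h3]; ring_nf
        _ ≤ |G (k + 1)| + |b * ρ (k + 1) * U k| := abs_add_le _ _
    have h8 : (1 : ℝ) / 2 ^ 119 * |U k| ≤
        1 / 2 ^ 119 * (3 * trA δ ρ k + 2 * (1 / 2 ^ 119) ^ k * δ) :=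
      mul_le_mul_of_nonneg_left hU (by positivity)
    have h9 : (1 : ℝ) / 2 ^ 119 * (3 * trA δ ρ k + 2 * (1 / 2 ^ 119) ^ k * δ) =
        3 * (1 / 2 ^ 119 * trA δ ρ k) + 2 * (1 / 2 ^ 119) ^ (k + 1) * δ := by
      rw [pow_succ]; ring
    have h10 : (1 : ℝ) / 2 ^ 119 * trA δ ρ k ≤ 1 / 4 * trA δ ρ (k + 1) := by
      have e1 : trA δ ρ k ≤ trA δ ρ (k + 1) := by linarith
      exact mul_le_mul (by norm_num) e1 hA.le (by norm_num)
    have h11 := core_half h (k := k + 1) (by omega) hk'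
    have h12 : (0 : ℝ) ≤ (1 / 2) ^ (k + 1) * trA δ ρ (k + 1) := by positivity
    linarith

/-- Main induction: `|G_k| ≤ (3/2 - (1/2)^k) A_k + A_k²` and `|U_k| ≤ 3 A_k + 2 (2^-119)^k δ`.
Proof. `|U_k| ≤ |G_k| + 2^-119 |U_{k-1}|`, and `|G_{k+1}| ≤ |G_k|/ρ_k + |Q_k|` with
`|Q_k| ≤ eps (9 A_k² + 4 (2^-238)^k δ²)`, `A_k²/ρ_k = A_k A_{k+1} ≤ 2^-19 A_{k+1}²`,
`4 eps (2^-238)^k δ² ≤ (1/2)^(k+1) A_{k+1}`; all `A_k ≤ δ'/2 ≤ 1/2`, so `|G_k| ≤ 2 A_k`; the bound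
of `U_k` is `≤ h`. -/
theorem Tr.main (h : Tr m δ δ' U G V Q ρ θ) {k : ℕ} (hk : 1 ≤ k) (hk' : k ≤ m + 1) :
    |G k| ≤ 2 * trA δ ρ k ∧ |U k| ≤ 3 * trA δ ρ k + 2 * (1 / 2 ^ 119) ^ k * δ := by
  obtain ⟨h1, h2⟩ := core_main h hk hk'
  refine ⟨?_, h2⟩
  have h3 := core_half h hk hk'
  have h4 := h.A_pos hk hk'
  have h5 : (0 : ℝ) ≤ (1 / 2) ^ k * trA δ ρ k := by positivity
  linarith

/-- bound of `Q` -/
theorem Tr.Q_le (h : Tr m δ δ' U G V Q ρ θ) {k : ℕ} (hk : 1 ≤ k) (hk' : k ≤ m) :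
    |Q k| ≤ eps * (9 * trA δ ρ k ^ 2 + 4 * ((1 / 2 ^ 119) ^ k * δ) ^ 2) :=
  core_Q h hk hk' (h.main hk (by omega)).2

/-- all deviations are small -/
theorem Tr.U_le (h : Tr m δ δ' U G V Q ρ θ) {k : ℕ} (hk' : k ≤ m + 1) :
    |U k| ≤ δ + 2 * δ' := by
  rcases Nat.eq_zero_or_pos k with rfl | hk
  · have h1 := h.U0
    have h2 := h.e0
    linarith
  · have h1 := (h.main hk hk').2
    have h2 := (h.A_le hk hk').1
    have h3 := core_small h hk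
    have h4 := h.d0
    have h5 := h.e0
    have h6 : (1 : ℝ) / 2 ^ 119 * δ ≤ 1 / 4 * δ :=
      mul_le_mul_of_nonneg_right (by norm_num) h4.le
    linarith

/-- the deviation at the end (`ρ_{m+1} = 0`) -/
theorem Tr.U_last (h : Tr m δ δ' U G V Q ρ θ) : |U (m + 1)| ≤ δ' := by
  have h1 := h.gU m le_rfl
  rw [h.rlast, mul_zero, zero_mul, sub_zero] at h1
  rw [← h1]
  exact ((h.main (by omega) le_rfl).1).trans h.prod

end Pool.Agent.WildW
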