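import Pool.Agent.Lib.MP_3dbc4a_an_WW.Core

/-!
# MP_3dbc4a_an, project W, block W: the bound of `V` in one transit
-/

set_option autoImplicit false

open Filter Set
open scoped Topology

namespace Pool.Agent.WildW

variable {m : ℕ} {δ δ' : ℝ} {U G V Q ρ θ : ℕ → ℝ}

private theorem corev_tri (x y : ℝ) : |x - y| ≤ |x| + |y| := by
  have h1 := abs_add_le x (-y)
  rwa [abs_neg, ← sub_eq_add_neg] at h1

/-- Proof. Induction over `k` with `Tr.Q_le`: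
`|V_k| ≤ (2 - (1/2)^(k-1)) (2^-119)^(k-1) δ + eps A_k²` for `1 ≤ k ≤ m + 1`, since
`|V_{k+1}| ≤ 2^-119 |V_k| + 2^-19 |Q_k|`, `A_k ≤ 2^-19 A_{k+1}` and
`2^-19 eps 4 ((2^-119)^k δ)² ≤ (1/2)^k (2^-119)^k δ`. At `k = m + 1`: `≤ 2 (2^-119)^m δ + eps δ'²/4
≤ δ'²/2 + eps δ'² / 4 ≤ δ'²`. -/
theorem Tr.V_last (h : Tr m δ δ' U G V Q ρ θ) : |V (m + 1)| ≤ δ' ^ 2 := by
  have hb0 := b_pos
  have hbe : b = 1 / 2 ^ 100 := rfl
  have he0 := eps_pos
  have he1 : eps ≤ 1 / 2 := by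
    have h1 : b / 2 ^ 800 ≤ b := div_le_self hb0.le (one_le_pow₀ (by norm_num))
    have h2 : b ≤ 1 / 2 := by
      rw [hbe]
      norm_num
    exact (eps_le_b.trans h1).trans h2
  have hd0 := h.d0
  have hd1 : δ ≤ 1 := h.d1.trans (by norm_num)
  have key : ∀ j, j ≤ m → |V (j + 1)| ≤
      (2 - (1 / 2) ^ j) * ((1 / 2 ^ 119) ^ j * δ) + eps * trA δ ρ (j + 1) ^ 2 := by
    intro j
    induction j with
    | zero =>
      intro _
      rw [h.V1]
      have h1 := h.U0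
      have h2 : 0 ≤ eps * trA δ ρ (0 + 1) ^ 2 := mul_nonneg he0.le (sq_nonneg _)
      simp only [pow_zero, one_mul]
      linarith
    | succ j ih =>
      intro hj
      have ih' := ih (by omega)
      rw [h.vV (j + 1) (by omega) hj]
      obtain ⟨ht0, ht1⟩ := h.tb (j + 1) hj
      have hQ := h.Q_le (k := j + 1) (by omega) hj
      have hA := h.A_grow (k := j + 1) (by omega) hj
      have hA0 := h.A_pos (k := j + 1) (by omega) (by omega)
      set A := trA δ ρ (j + 1) with hAdef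
      set A' := trA δ ρ (j + 1 + 1) with hAdef'
      set w : ℝ := (1 / 2 ^ 119) ^ j * δ with hw
      have hw0 : 0 < w := by positivity
      have hw1 : w ≤ (1 / 2) ^ j := by
        have h1 : ((1 : ℝ) / 2 ^ 119) ^ j ≤ (1 / 2) ^ j :=
          pow_le_pow_left₀ (by positivity) (by norm_num) j
        calc w ≤ (1 / 2) ^ j * 1 := mul_le_mul h1 hd1 hd0.le (by positivity)
          _ = (1 / 2) ^ j := mul_one _
      have hws : (1 / 2 ^ 119) ^ (j + 1) * δ = 1 / 2 ^ 119 * w := by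
        rw [hw]
        ring
      rw [hws] at hQ ⊢
      have hp : (0 : ℝ) < (1 / 2) ^ j := by positivity
      have hp' : ((1 : ℝ) / 2) ^ (j + 1) = (1 / 2) ^ j / 2 := by ring
      rw [hp']
      set p : ℝ := (1 / 2) ^ j with hpdef
      have h3 : |θ (j + 1) * (b * V (j + 1) - Q (j + 1))| ≤
          1 / 2 ^ 19 * (b * |V (j + 1)| + |Q (j + 1)|) := by
        rw [abs_mul, abs_of_nonneg ht0]
        refine mul_le_mul ht1 ?_ (abs_nonneg _) (by norm_num)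
        have h2 : |b * V (j + 1)| = b * |V (j + 1)| := by rw [abs_mul, abs_of_pos hb0]
        rw [← h2]
        exact corev_tri _ _
      refine h3.trans ?_
      have h4 : 1 / 2 ^ 19 * (b * |V (j + 1)| + |Q (j + 1)|) ≤ 1 / 2 ^ 19 *
          (1 / 2 ^ 100 * ((2 - p) * w + eps * A ^ 2) +
            eps * (9 * A ^ 2 + 4 * (1 / 2 ^ 119 * w) ^ 2)) := by
        rw [hbe]
        gcongr
      refine h4.trans ?_
      have h5 : A ^ 2 * 2 ^ 38 ≤ A' ^ 2 := by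
        calc A ^ 2 * 2 ^ 38 = (2 ^ 19 * A) ^ 2 := by ring
          _ ≤ A' ^ 2 := pow_le_pow_left₀ (by positivity) hA 2
      have h6 : w ^ 2 ≤ p * w := by
        rw [pow_two]
        exact mul_le_mul_of_nonneg_right hw1 hw0.le
      have h7 : 1 / 2 ^ 19 * (1 / 2 ^ 100 * ((2 - p) * w + eps * A ^ 2) +
            eps * (9 * A ^ 2 + 4 * (1 / 2 ^ 119 * w) ^ 2)) =
          (2 - p) * (1 / 2 ^ 119 * w) + eps * (A ^ 2 * (1 / 2 ^ 119 + 9 / 2 ^ 19)) +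
            eps * (w ^ 2 * (4 * (1 / 2 ^ 119) ^ 2 / 2 ^ 19)) := by
        ring
      rw [h7]
      have h8 : eps * (A ^ 2 * (1 / 2 ^ 119 + 9 / 2 ^ 19)) ≤ eps * A' ^ 2 := by
        have h9 : A ^ 2 * (1 / 2 ^ 119 + 9 / 2 ^ 19) ≤ A ^ 2 * 2 ^ 38 := by
          have : (1 : ℝ) / 2 ^ 119 + 9 / 2 ^ 19 ≤ 2 ^ 38 := by norm_num
          gcongr
        exact mul_le_mul_of_nonneg_left (h9.trans h5) he0.le
      have h10 : eps * (w ^ 2 * (4 * (1 / 2 ^ 119) ^ 2 / 2 ^ 19)) ≤ p / 2 * (1 / 2 ^ 119 * w) := by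
        have h11 : eps * (w ^ 2 * (4 * (1 / 2 ^ 119) ^ 2 / 2 ^ 19)) ≤ 1 / 2 * (p * w * (4 * (1 / 2 ^ 119) ^ 2 / 2 ^ 19)) := by
          gcongr
        have h12 : (4 : ℝ) * (1 / 2 ^ 119) ^ 2 / 2 ^ 19 ≤ 1 / 2 ^ 119 := by norm_num
        have h13 : p * w * (4 * (1 / 2 ^ 119) ^ 2 / 2 ^ 19) ≤ p * w * (1 / 2 ^ 119) := by gcongr
        linarith
      nlinarith
  have h1 := key m le_rfl
  have h2 := (h.A_le (k := m + 1) (by omega) le_rfl).1
  have h3 := h.A_pos (k := m + 1) (by omega) le_rfl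
  have h4 := h.C2
  have h5 : trA δ ρ (m + 1) ^ 2 ≤ δ' ^ 2 / 4 := by
    calc trA δ ρ (m + 1) ^ 2 ≤ (δ' / 2) ^ 2 := pow_le_pow_left₀ h3.le h2 2
      _ = δ' ^ 2 / 4 := by ring
  have h6 : eps * trA δ ρ (m + 1) ^ 2 ≤ 1 / 2 * (δ' ^ 2 / 4) := by
    gcongr
  have h7 : (2 - (1 / 2) ^ m) * ((1 / 2 ^ 119) ^ m * δ) ≤ 2 * ((1 / 2 ^ 119) ^ m * δ) := by
    have : (0 : ℝ) ≤ (1 / 2) ^ m := by positivity
    gcongr
    linarith
  have h8 : 0 ≤ δ' ^ 2 := by positivity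
  linarith

end Pool.Agent.WildW
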