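import Pool.Agent.Lib.MP_3dbc4a_an_WO.OBas

/-!
# MP_3dbc4a_an, project W, block W: the product of the slopes in one transit
-/

set_option autoImplicit false

open Filter Set
open scoped Topology

namespace Pool.Agent.WildW

private theorem prd_eps : eps ≤ 1 / 4 := by
  have h1 := eps_le_b
  have h2 := b_pos
  have h4 : b / 2 ^ 800 ≤ b := div_le_self h2.le (one_le_pow₀ one_le_two)
  have h5 : b ≤ 1 / 4 := by
    rw [b_eq]
    norm_num
  linarith

private theorem prd_sl (c : Pl) : c.sl + eps ≤ 2 ^ 21 * (if c = .g then 2 ^ 101 else 1) := by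
  have h0 := prd_eps
  have h1 := sg_hi
  have h2 : (2 : ℝ) ^ 20 + 1 / 2 ^ 76 ≤ 2 ^ 20 + 1 / 4 := by
    have : (1 : ℝ) / 2 ^ 76 ≤ 1 / 4 := by norm_num
    linarith
  cases c with
  | e c =>
    rw [if_neg (by simp), mul_one]
    have h3 : (Pl.e c).sl ≤ 3 * 2 ^ 19 := by
      unfold Pl.sl
      dsimp only
      split_ifs
      · exact le_rfl
      · norm_num
    have h4 : (3 : ℝ) * 2 ^ 19 + 1 / 4 ≤ 2 ^ 21 := by norm_num
    linarith
  | f j =>
    rw [if_neg (by simp), mul_one]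
    have h3 : (Pl.f j).sl = sg := rfl
    have h4 : (2 : ℝ) ^ 20 + 1 / 4 + 1 / 4 ≤ 2 ^ 21 := by norm_num
    rw [h3]
    linarith
  | g =>
    rw [if_pos rfl]
    have h3 : (Pl.g).sl = 2 / h := rfl
    have h4 : 2 / h = 2 ^ 101 * sg := by
      have hb : b * 2 ^ 100 = 1 := by
        rw [b_eq]
        norm_num
      have h5 := sg_mul_h
      rw [div_eq_iff h_pos.ne']
      calc (2 : ℝ) = 2 * (b * 2 ^ 100) := by rw [hb, mul_one]
        _ = 2 * (sg * h * 2 ^ 100) := by rw [h5]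
        _ = 2 ^ 101 * sg * h := by ring
    rw [h3, h4]
    have h6 : (2 : ℝ) ^ 101 * sg ≤ 2 ^ 101 * (2 ^ 20 + 1 / 4) :=
      mul_le_mul_of_nonneg_left (h1.trans h2) (by positivity)
    have h7 : (2 : ℝ) ^ 101 * (2 ^ 20 + 1 / 4) + 1 / 4 ≤ 2 ^ 21 * 2 ^ 101 := by norm_num
    linarith

/-- One factor: `1/r_n = P1(x_n) - b r_{n+1} ≤ slope + eps`, which is `≤ 2^21` for the letters
`e`, `f` and `≤ 2^122` for `g` (`2/h = 2^101 sg`). -/
theorem one_div_r_le (F : Fam) {a : Fin 8 → ℝ} (ha : Cube a) {s : ℤ → Lt}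
    (hs : Adm (symOf s)) {n : ℤ} {c : Pl} (hn : s n = .p c) :
    0 < rs F a (symOf s) n ∧
      1 / rs F a (symOf s) n ≤ 2 ^ 21 * (if c = .g then 2 ^ 101 else 1) := by
  have h1 := OB.rs_pos F ha hs hn
  refine ⟨h1, ?_⟩
  have h2 := OB.rs_rec F ha hs hn
  have h3 := OB.P1_pl F ha hs hn
  have h4 := (OB.rs_b F ha hs (n + 1)).1
  have h5 : 1 / rs F a (symOf s) n =
      F.P1 a (xs F a (symOf s) n) - b * rs F a (symOf s) (n + 1) := by
    rw [div_eq_iff h1.ne', mul_comm]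
    exact h2.symm
  rw [h5]
  have h6 := prd_sl c
  have h7 := (abs_le.1 h3).2
  have h8 := mul_nonneg b_pos.le h4
  linarith

/-- The product over the transit. -/
theorem prod_r_le (F : Fam) {a : Fin 8 → ℝ} (ha : Cube a) {s : ℤ → Lt}
    (hs : Adm (symOf s)) {t0 : ℤ} {m γ : ℕ}
    (hpl : ∀ n, t0 < n → n < t0 + m + 1 → ∃ c, s n = .p c)
    (hg : ((Finset.Ioo t0 (t0 + m + 1)).filter (fun n => s n = .p .g)).card ≤ γ) :
    ∏ i ∈ Finset.range m, 1 / rs F a (symOf s) (t0 + ((i + 1 : ℕ) : ℤ)) ≤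
      2 ^ (21 * m + 101 * γ) := by
  have hbd : ∀ i ∈ Finset.range m, 0 ≤ 1 / rs F a (symOf s) (t0 + ((i + 1 : ℕ) : ℤ)) ∧
      1 / rs F a (symOf s) (t0 + ((i + 1 : ℕ) : ℤ)) ≤
        2 ^ 21 * (if s (t0 + ((i + 1 : ℕ) : ℤ)) = .p .g then 2 ^ 101 else 1) := by
    intro i hi
    rw [Finset.mem_range] at hi
    obtain ⟨c, hc⟩ := hpl (t0 + ((i + 1 : ℕ) : ℤ)) (by push_cast; omega) (by push_cast; omega)
    obtain ⟨h1, h2⟩ := one_div_r_le F ha hs hc
    refine ⟨(one_div_pos.2 h1).le, h2.trans (le_of_eq ?_)⟩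
    rw [hc]
    congr 1
    by_cases h3 : c = .g
    · rw [if_pos h3, if_pos (by rw [h3])]
    · rw [if_neg h3, if_neg (fun h4 => h3 (Lt.p.inj h4))]
  have h1 := Finset.prod_le_prod (fun i hi => (hbd i hi).1) (fun i hi => (hbd i hi).2)
  refine h1.trans ?_
  rw [Finset.prod_mul_distrib, Finset.prod_const, Finset.card_range, Finset.prod_ite,
    Finset.prod_const, Finset.prod_const_one, mul_one, ← pow_mul, ← pow_mul, pow_add]
  refine mul_le_mul_of_nonneg_left ?_ (by positivity)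
  refine pow_le_pow_right₀ one_le_two (Nat.mul_le_mul_left 101 (le_trans ?_ hg))
  refine Finset.card_le_card_of_injOn (fun i => t0 + ((i + 1 : ℕ) : ℤ)) ?_ ?_
  · intro i hi
    rw [Finset.coe_filter, Set.mem_setOf_eq, Finset.mem_range] at hi
    rw [Finset.coe_filter, Set.mem_setOf_eq, Finset.mem_Ioo]
    refine ⟨⟨by push_cast; omega, by push_cast; omega⟩, hi.2⟩
  · intro i _ j _ hij
    simp only at hij
    omega

end Pool.Agent.WildW
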