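import Pool.Agent.Lib.MP_3dbc4a_an_WP.Num

/-!
# MP_3dbc4a_an, project W, block W: second order Taylor bounds
-/

set_option autoImplicit false

open Filter Set
open scoped Topology

namespace Pool.Agent.WildW

/-- the case `0 ≤ u` -/
private theorem taylor_two_nonneg {P P1 P2 : ℝ → ℝ} (hP : ∀ x, HasDerivAt P (P1 x) x)
    (hP1 : ∀ x, HasDerivAt P1 (P2 x) x) {x u C : ℝ} (hu : 0 ≤ u)
    (hC : ∀ z ∈ Icc x (x + u), |P2 z| ≤ C) :
    |P (x + u) - P x - P1 x * u| ≤ C / 2 * u ^ 2 := by
  have h1 : ∀ s ∈ Icc 0 u, |P1 (x + s) - P1 x| ≤ C * s := by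
    intro s hs
    have h2 := Convex.norm_image_sub_le_of_norm_hasDerivWithin_le (f := P1) (f' := P2)
      (s := Icc x (x + u)) (C := C) (x := x) (y := x + s)
      (fun z _ => (hP1 z).hasDerivWithinAt) (fun z hz => hC z hz) (convex_Icc _ _)
      ⟨le_refl _, by linarith⟩ ⟨by linarith [hs.1], by linarith [hs.2]⟩
    rw [Real.norm_eq_abs, Real.norm_eq_abs, add_sub_cancel_left, abs_of_nonneg hs.1] at h2
    exact h2
  have hf : ∀ s, HasDerivAt (fun s => P (x + s) - P x - P1 x * s) (P1 (x + s) - P1 x) s := by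
    intro s
    have h2 : HasDerivAt (fun s => P (x + s)) (P1 (x + s)) s :=
      HasDerivAt.comp_const_add x s (hP (x + s))
    have h3 : HasDerivAt (fun s => P1 x * s) (P1 x) s := by
      simpa using (hasDerivAt_id s).const_mul (P1 x)
    exact (h2.sub_const (P x)).sub h3
  have key := image_norm_le_of_norm_deriv_right_le_deriv_boundary
    (f := fun s => P (x + s) - P x - P1 x * s) (f' := fun s => P1 (x + s) - P1 x)
    (a := 0) (b := u) (B := fun s => C / 2 * s ^ 2) (B' := fun s => C * s)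
    (fun s _ => (hf s).continuousAt.continuousWithinAt)
    (fun s _ => (hf s).hasDerivWithinAt) (by simp)
    (fun s => by
      have := (hasDerivAt_pow 2 s).const_mul (C / 2)
      refine this.congr_deriv ?_
      push_cast
      ring)
    (fun s hs => h1 s ⟨hs.1, hs.2.le⟩) (x := u) ⟨hu, le_refl _⟩
  exact key

/-- Taylor's formula with a bound of the second derivative on the segment from `x` to `x + u`.
Proof. `φ(s) = P (x + s) - P x - P1 x * s` has the derivative `P1 (x + s) - P1 x`, of absolute value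
`≤ C |s|` (mean value theorem for `P1`); compare with `C s² / 2` on both sides of `0`. -/
theorem taylor_two {P P1 P2 : ℝ → ℝ} (hP : ∀ x, HasDerivAt P (P1 x) x)
    (hP1 : ∀ x, HasDerivAt P1 (P2 x) x) {x u C : ℝ}
    (hC : ∀ z, |z - x| ≤ |u| → |P2 z| ≤ C) :
    |P (x + u) - P x - P1 x * u| ≤ C / 2 * u ^ 2 := by
  rcases le_total 0 u with hu | hu
  · refine taylor_two_nonneg hP hP1 hu fun z hz => hC z ?_
    rw [abs_of_nonneg hu, abs_of_nonneg (by linarith [hz.1])]
    linarith [hz.2]
  · have h1 := taylor_two_nonneg (P := fun y => P (-y)) (P1 := fun y => -P1 (-y))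
      (P2 := fun y => P2 (-y)) (x := -x) (u := -u) (C := C)
      (fun y => by
        have h3 : HasDerivAt (fun y => P (-y)) (P1 (-y) * -1) y :=
          (hP (-y)).comp y (hasDerivAt_neg y)
        exact h3.congr_deriv (by ring))
      (fun y => by
        have h3 : HasDerivAt (fun y => P1 (-y)) (P2 (-y) * -1) y :=
          (hP1 (-y)).comp y (hasDerivAt_neg y)
        have h4 : HasDerivAt (fun y => -P1 (-y)) (-(P2 (-y) * -1)) y := h3.neg
        exact h4.congr_deriv (by ring))
      (by linarith) (fun z hz => hC (-z) ?_)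
    · rw [neg_sq] at h1
      have h2 : - (-x + -u) = x + u := by ring
      rw [h2, neg_neg] at h1
      rwa [neg_mul_neg] at h1
    · rw [abs_of_nonpos hu, abs_of_nonpos (by linarith [hz.1])]
      linarith [hz.2]

private theorem tay_mem {c : Lt} {x u z : ℝ} (hx : x ∈ c.W) (hu : |u| ≤ h)
    (hz : |z - x| ≤ |u|) : z ∈ c.Wp := by
  have h1 := abs_le.1 (hz.trans hu)
  exact ⟨by linarith [hx.1, h1.1], by linarith [hx.2, h1.2]⟩

/-- The quadratic remainder at a plain letter; `|u| ≤ h` keeps the segment in the enlarged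
window. -/
theorem q_plain (F : Fam) {a : Fin 8 → ℝ} (ha : Cube a) {c : Pl} {x u : ℝ}
    (hx : x ∈ (Lt.p c).W) (hu : |u| ≤ h) :
    |F.P a (x + u) - F.P a x - F.P1 a x * u| ≤ eps / 2 * u ^ 2 :=
  taylor_two (F.hP a) (F.hP1 a) fun z hz => F.pl2 a ha c z (tay_mem hx hu hz)

/-- The quadratic remainder at a fold. -/
theorem q_fold (F : Fam) {a : Fin 8 → ℝ} (ha : Cube a) {i : Fin 8} {x u : ℝ}
    (hx : x ∈ (Lt.d i).W) (hu : |u| ≤ h) :
    |F.P a (x + u) - F.P a x - F.P1 a x * u| ≤ (2 ^ 21 + eps) / 2 * u ^ 2 := by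
  refine taylor_two (F.hP a) (F.hP1 a) fun z hz => ?_
  have h1 := abs_le.1 (F.fo2 a ha i z (tay_mem hx hu hz))
  have h2 := eps_pos
  rw [abs_le]
  constructor
  · linarith [h1.1]
  · have h3 : (0 : ℝ) ≤ 2 ^ 21 := by positivity
    linarith [h1.2]

end Pool.Agent.WildW
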