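import Pool.Agent.Lib.MP_3dbc4a_an_WW.CoreV
import Pool.Agent.Lib.MP_3dbc4a_an_WW.Prd
import Pool.Agent.Lib.MP_3dbc4a_an_WW.Tay

/-!
# MP_3dbc4a_an, project W, block W: the transit lemma
-/

set_option autoImplicit false

open Filter Set
open scoped Topology

namespace Pool.Agent.WildW

private theorem tr_alg_g {u1 u0 um p r0 r1 q : ℝ} (h0 : r0 ≠ 0)
    (h : u1 = p * u0 + q - b * um) (hr : r0 * (p - b * r1) = 1) :
    u1 - b * r1 * u0 = (u0 - b * r0 * um) / r0 + q := by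
  have h2 : u1 - b * r1 * u0 - q = (u0 - b * r0 * um) / r0 := by
    rw [eq_div_iff h0]
    linear_combination r0 * h + u0 * hr
  linarith

private theorem tr_alg_v {u1 u0 um p t0 tm q : ℝ}
    (h : u1 = p * u0 + q - b * um) (ht : t0 * (p - b * tm) = 1) :
    u0 - t0 * u1 = t0 * (b * (um - tm * u0) - q) := by
  linear_combination (-t0) * h - u0 * ht

private theorem tr_tri (x y z : ℝ) : |x + y - z| ≤ |x| + |y| + |z| := by
  have h1 := abs_add_le (x + y) (-z)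
  have h2 := abs_add_le x y
  rw [abs_neg, ← sub_eq_add_neg] at h1
  linarith

/-- The data of the transit satisfy the hypotheses of the abstract lemma. Exact algebra, with
`u_n = y_n - x_n`, `q_n = P(x_n + u_n) - P(x_n) - P1(x_n) u_n`, `g_n = u_n - b r_n u_{n-1}`,
`v_n = u_{n-1} - t_{n-1} u_n`:
plain `n`: `g_{n+1} = g_n / r_n + q_n`, `v_{n+1} = t_n (b v_n - q_n)`;
fold `n = t0`: `g_{n+1} = Φ_n + q_n - b v_n`, `v_{n+1} = u_n`. -/
theorem transit_tr (F : Fam) {a : Fin 8 → ℝ} (ha : Cube a) {s : ℤ → Lt} (hs : Adm (symOf s))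
    {t0 : ℤ} {m d d' γ : ℕ} {i i' : Fin 8} (h0 : s t0 = .d i) (h1 : s (t0 + m + 1) = .d i')
    (hpl : ∀ n, t0 < n → n < t0 + m + 1 → ∃ c, s n = .p c)
    (hg : ((Finset.Ioo t0 (t0 + m + 1)).filter (fun n => s n = .p .g)).card ≤ γ)
    (hPhi : |Phi F a (symOf s) t0| ≤ (1 / 2 ^ d) ^ 2)
    (hC1 : 22 + 21 * m + 101 * γ + d' ≤ 2 * d) (hC2 : 2 * d' + 2 ≤ 119 * m + d)
    (hd : 130 ≤ d) (hd' : 130 ≤ d')
    {y : ℤ → ℝ} (hy : ∀ n, t0 ≤ n → n < t0 + m + 1 → y (n + 1) = F.P a (y n) - b * y (n - 1))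
    (hu : |y t0 - xs F a (symOf s) t0| ≤ 1 / 2 ^ d)
    (hv : |(y (t0 - 1) - xs F a (symOf s) (t0 - 1)) -
      ts F a (symOf s) (t0 - 1) * (y t0 - xs F a (symOf s) t0)| ≤ (1 / 2 ^ d) ^ 2)
    {u : ℤ → ℝ} (hu' : ∀ n, u n = y n - xs F a (symOf s) n) :
    Tr m (1 / 2 ^ d) (1 / 2 ^ d') (fun k => u (t0 + k))
      (fun k => u (t0 + k) - b * rs F a (symOf s) (t0 + k) * u (t0 + k - 1))
      (fun k => u (t0 + k - 1) - ts F a (symOf s) (t0 + k - 1) * u (t0 + k))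
      (fun k => F.P a (y (t0 + k)) - F.P a (xs F a (symOf s) (t0 + k)) -
        F.P1 a (xs F a (symOf s) (t0 + k)) * u (t0 + k))
      (fun k => rs F a (symOf s) (t0 + k)) (fun k => ts F a (symOf s) (t0 + k)) := by
  set x := xs F a (symOf s) with hx
  set r := rs F a (symOf s) with hr
  set t := ts F a (symOf s) with ht
  have X : IsSol F a (symOf s) x r t := isSol_sol F ha hs
  have hb0 := b_pos
  have he0 := eps_pos
  have hsym : ∀ {n : ℤ} {c : Pl}, s n = .p c → symOf s n = .p c := by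
    intro n c hn
    show (s n).sym = _
    rw [hn]
    rfl
  have hsymd : ∀ {n : ℤ} {c : Fin 8}, s n = .d c → symOf s n = .d c := by
    intro n c hn
    show (s n).sym = _
    rw [hn]
    rfl
  have hyx : ∀ n, y n = x n + u n := fun n => by
    rw [hu' n]
    ring
  have hD1 : (1 : ℝ) / 2 ^ d ≤ 1 / 2 ^ 130 :=
    one_div_le_one_div_of_le (by positivity) (pow_le_pow_right₀ (by norm_num) hd)
  have hD1' : (1 : ℝ) / 2 ^ d' ≤ 1 / 2 ^ 130 :=
    one_div_le_one_div_of_le (by positivity) (pow_le_pow_right₀ (by norm_num) hd')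
  have hDh : (1 : ℝ) / 2 ^ d ≤ h := (hD1.trans (by norm_num)).trans h_lo
  have hpl' : ∀ k : ℕ, 1 ≤ k → k ≤ m → ∃ c, s (t0 + k) = .p c := by
    intro k hk hk'
    refine hpl _ ?_ ?_
    · have : (1 : ℤ) ≤ k := by exact_mod_cast hk
      linarith
    · have : (k : ℤ) ≤ m := by exact_mod_cast hk'
      linarith
  -- the recursion of `u`
  have hrec : ∀ n c, s n = .p c → t0 ≤ n → n < t0 + m + 1 → u (n + 1) =
      F.P1 a (x n) * u n + (F.P a (y n) - F.P a (x n) - F.P1 a (x n) * u n) - b * u (n - 1) := by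
    intro n c hn h2 h3
    have h4 := hy n h2 h3
    have h5 := X.plx n c (hsym hn)
    rw [hu' (n + 1), hu' (n - 1)]
    linear_combination h4 + h5
  have hu0 : |u t0| ≤ 1 / 2 ^ d := by
    rw [hu' t0]
    exact hu
  have hv0 : |u (t0 - 1) - t (t0 - 1) * u t0| ≤ (1 / 2 ^ d) ^ 2 := by
    rw [hu' t0, hu' (t0 - 1)]
    exact hv
  refine
    { d0 := by positivity
      d1 := hD1
      e0 := by positivity
      e1 := hD1'
      rpos := ?_
      rb := fun k _ => X.rb _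
      tb := fun k _ => X.tb _
      rlast := ?_
      gU := ?_
      gG := ?_
      vV := ?_
      qQ := ?_
      U0 := ?_
      G1 := ?_
      V1 := ?_
      prod := ?_
      C2 := ?_ }
  · intro k hk hk'
    obtain ⟨c, hc⟩ := hpl' k hk hk'
    exact (one_div_r_le F ha hs hc).1
  · have h2 : t0 + ((m + 1 : ℕ) : ℤ) = t0 + m + 1 := by push_cast; ring
    show r (t0 + ((m + 1 : ℕ) : ℤ)) = 0
    rw [h2]
    exact (X.fort _ _ (hsymd h1)).1
  · intro k _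
    have h2 : t0 + ((k + 1 : ℕ) : ℤ) - 1 = t0 + k := by push_cast; ring
    show u (t0 + ((k + 1 : ℕ) : ℤ)) - b * r (t0 + ((k + 1 : ℕ) : ℤ)) *
      u (t0 + ((k + 1 : ℕ) : ℤ) - 1) = _
    rw [h2]
  · intro k hk hk'
    obtain ⟨c, hc⟩ := hpl' k hk hk'
    have hk1 : (k : ℤ) ≤ m := by exact_mod_cast hk'
    have h2 : t0 + ((k + 1 : ℕ) : ℤ) - 1 = t0 + k := by push_cast; ring
    have h3 : t0 + ((k + 1 : ℕ) : ℤ) = t0 + k + 1 := by push_cast; ring
    have h4 := hrec _ c hc (by linarith [Int.natCast_nonneg k]) (by linarith)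
    have h5 := X.plr _ c (hsym hc)
    have h6 := (one_div_r_le F ha hs hc).1
    show u (t0 + ((k + 1 : ℕ) : ℤ)) - b * r (t0 + ((k + 1 : ℕ) : ℤ)) *
      u (t0 + ((k + 1 : ℕ) : ℤ) - 1) = (u (t0 + k) - b * r (t0 + k) * u (t0 + k - 1)) / r (t0 + k) +
        (F.P a (y (t0 + k)) - F.P a (x (t0 + k)) - F.P1 a (x (t0 + k)) * u (t0 + k))
    rw [h2, h3]
    exact tr_alg_g h6.ne' h4 h5
  · intro k hk hk'
    obtain ⟨c, hc⟩ := hpl' k hk hk'
    have hk1 : (k : ℤ) ≤ m := by exact_mod_cast hk'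
    have h2 : t0 + ((k + 1 : ℕ) : ℤ) - 1 = t0 + k := by push_cast; ring
    have h3 : t0 + ((k + 1 : ℕ) : ℤ) = t0 + k + 1 := by push_cast; ring
    have h4 := hrec _ c hc (by linarith [Int.natCast_nonneg k]) (by linarith)
    have h5 := X.plt _ c (hsym hc)
    show u (t0 + ((k + 1 : ℕ) : ℤ) - 1) - t (t0 + ((k + 1 : ℕ) : ℤ) - 1) *
      u (t0 + ((k + 1 : ℕ) : ℤ)) = t (t0 + k) * (b * (u (t0 + k - 1) - t (t0 + k - 1) *
        u (t0 + k)) - (F.P a (y (t0 + k)) - F.P a (x (t0 + k)) -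
          F.P1 a (x (t0 + k)) * u (t0 + k)))
    rw [h2, h3]
    exact tr_alg_v h4 h5
  · intro k hk hk' hUk
    obtain ⟨c, hc⟩ := hpl' k hk hk'
    show |F.P a (y (t0 + k)) - F.P a (x (t0 + k)) - F.P1 a (x (t0 + k)) * u (t0 + k)| ≤
      eps / 2 * u (t0 + k) ^ 2
    rw [hyx]
    exact q_plain F ha (X.plW _ c (hsym hc)) hUk
  · show |u (t0 + ((0 : ℕ) : ℤ))| ≤ 1 / 2 ^ d
    rw [Nat.cast_zero, add_zero]
    exact hu0
  · have h2 : t0 + ((1 : ℕ) : ℤ) - 1 = t0 := by push_cast; ring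
    have h3 : t0 + ((1 : ℕ) : ℤ) = t0 + 1 := by push_cast; ring
    show |u (t0 + ((1 : ℕ) : ℤ)) - b * r (t0 + ((1 : ℕ) : ℤ)) *
      u (t0 + ((1 : ℕ) : ℤ) - 1)| ≤ 2 ^ 21 * (1 / 2 ^ d) ^ 2
    rw [h2, h3]
    have h4 := hy t0 le_rfl (by linarith [Int.natCast_nonneg m])
    have h5 := X.fox t0 i (hsymd h0)
    have h6 : u (t0 + 1) - b * r (t0 + 1) * u t0 = Phi F a (symOf s) t0 +
        (F.P a (y t0) - F.P a (x t0) - F.P1 a (x t0) * u t0) -
          b * (u (t0 - 1) - t (t0 - 1) * u t0) := by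
      show u (t0 + 1) - b * r (t0 + 1) * u t0 = (F.P a (x t0) - b * x (t0 - 1) - x (t0 + 1)) +
        (F.P a (y t0) - F.P a (x t0) - F.P1 a (x t0) * u t0) -
          b * (u (t0 - 1) - t (t0 - 1) * u t0)
      rw [hu' (t0 + 1), hu' (t0 - 1)]
      linear_combination h4 + u t0 * h5
    rw [h6]
    have h7 : |F.P a (y t0) - F.P a (x t0) - F.P1 a (x t0) * u t0| ≤
        (2 ^ 21 + eps) / 2 * (1 / 2 ^ d) ^ 2 := by
      rw [hyx]
      refine (q_fold F ha (X.foW _ i (hsymd h0)) (hu0.trans hDh)).trans ?_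
      have h8 : u t0 ^ 2 ≤ (1 / 2 ^ d) ^ 2 := by
        rw [← sq_abs]
        exact pow_le_pow_left₀ (abs_nonneg _) hu0 2
      exact mul_le_mul_of_nonneg_left h8 (by linarith)
    have h9 : |b * (u (t0 - 1) - t (t0 - 1) * u t0)| ≤ b * (1 / 2 ^ d) ^ 2 := by
      rw [abs_mul, abs_of_pos hb0]
      exact mul_le_mul_of_nonneg_left hv0 hb0.le
    have h10 := tr_tri (Phi F a (symOf s) t0)
      (F.P a (y t0) - F.P a (x t0) - F.P1 a (x t0) * u t0)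
      (b * (u (t0 - 1) - t (t0 - 1) * u t0))
    refine h10.trans ?_
    have hb1 : b ≤ 1 := b_lt_one.le
    have he1 : eps ≤ 1 := by
      have h11 : b / 2 ^ 800 ≤ b := div_le_self hb0.le (one_le_pow₀ (by norm_num))
      exact (eps_le_b.trans h11).trans hb1
    have h12 : (0 : ℝ) ≤ (1 / 2 ^ d) ^ 2 := by positivity
    have h13 : (1 : ℝ) + (2 ^ 21 + eps) / 2 + b ≤ 2 ^ 21 := by linarith
    have h14 := mul_le_mul_of_nonneg_right h13 h12
    linarith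
  · have h2 : t0 + ((1 : ℕ) : ℤ) - 1 = t0 := by push_cast; ring
    show u (t0 + ((1 : ℕ) : ℤ) - 1) - t (t0 + ((1 : ℕ) : ℤ) - 1) * u (t0 + ((1 : ℕ) : ℤ)) =
      u (t0 + ((0 : ℕ) : ℤ))
    have h3 : t t0 = 0 := (X.fort _ _ (hsymd h0)).2
    rw [h2, h3, Nat.cast_zero, add_zero, zero_mul, sub_zero]
  · have h2 := prod_r_le F ha hs hpl hg
    show 2 * (2 ^ 21 * (1 / 2 ^ d) ^ 2 * ∏ i ∈ Finset.range (m + 1 - 1),
      1 / r (t0 + ((i + 1 : ℕ) : ℤ))) ≤ 1 / 2 ^ d'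
    rw [Nat.add_sub_cancel]
    have h3 : 2 * (2 ^ 21 * ((1 : ℝ) / 2 ^ d) ^ 2 * ∏ i ∈ Finset.range m,
        1 / r (t0 + ((i + 1 : ℕ) : ℤ))) ≤
        2 * (2 ^ 21 * ((1 : ℝ) / 2 ^ d) ^ 2 * 2 ^ (21 * m + 101 * γ)) := by
      gcongr
    refine h3.trans ?_
    have h4 : 2 * (2 ^ 21 * ((1 : ℝ) / 2 ^ d) ^ 2 * 2 ^ (21 * m + 101 * γ)) =
        2 ^ (22 + 21 * m + 101 * γ) / 2 ^ (2 * d) := by
      rw [show 22 + 21 * m + 101 * γ = 22 + (21 * m + 101 * γ) by ring, pow_add, pow_mul']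
      field_simp
      ring
    rw [h4, div_le_div_iff₀ (by positivity) (by positivity), one_mul, ← pow_add]
    exact pow_le_pow_right₀ (by norm_num) hC1
  · show 4 * (1 / 2 ^ 119) ^ m * ((1 : ℝ) / 2 ^ d) ≤ (1 / 2 ^ d') ^ 2
    have h2 : 4 * (1 / 2 ^ 119) ^ m * ((1 : ℝ) / 2 ^ d) = 2 ^ 2 / 2 ^ (119 * m + d) := by
      rw [pow_add, pow_mul, one_div_pow]
      field_simp
      ring
    have h3 : ((1 : ℝ) / 2 ^ d') ^ 2 = 1 / 2 ^ (2 * d') := by
      rw [pow_mul', one_div_pow]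
    rw [h2, h3, div_le_div_iff₀ (by positivity) (by positivity), one_mul, ← pow_add]
    refine pow_le_pow_right₀ (by norm_num) ?_
    omega

/-- **W (transit lemma).** One passage from a fold at `t0` to the next fold at `t1 = t0 + m + 1`. -/
theorem transit (F : Fam) {a : Fin 8 → ℝ} (ha : Cube a) {s : ℤ → Lt} (hs : Adm (symOf s))
    {t0 : ℤ} {m d d' γ : ℕ} {i i' : Fin 8} (h0 : s t0 = .d i) (h1 : s (t0 + m + 1) = .d i')
    (hpl : ∀ n, t0 < n → n < t0 + m + 1 → ∃ c, s n = .p c)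
    (hg : ((Finset.Ioo t0 (t0 + m + 1)).filter (fun n => s n = .p .g)).card ≤ γ)
    (hPhi : |Phi F a (symOf s) t0| ≤ (1 / 2 ^ d) ^ 2)
    (hC1 : 22 + 21 * m + 101 * γ + d' ≤ 2 * d) (hC2 : 2 * d' + 2 ≤ 119 * m + d)
    (hd : 130 ≤ d) (hd' : 130 ≤ d')
    {y : ℤ → ℝ} (hy : ∀ n, t0 ≤ n → n < t0 + m + 1 → y (n + 1) = F.P a (y n) - b * y (n - 1))
    (hu : |y t0 - xs F a (symOf s) t0| ≤ 1 / 2 ^ d)
    (hv : |(y (t0 - 1) - xs F a (symOf s) (t0 - 1)) -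
      ts F a (symOf s) (t0 - 1) * (y t0 - xs F a (symOf s) t0)| ≤ (1 / 2 ^ d) ^ 2) :
    |y (t0 + m + 1) - xs F a (symOf s) (t0 + m + 1)| ≤ 1 / 2 ^ d' ∧
    |(y (t0 + m) - xs F a (symOf s) (t0 + m)) -
      ts F a (symOf s) (t0 + m) * (y (t0 + m + 1) - xs F a (symOf s) (t0 + m + 1))| ≤
        (1 / 2 ^ d') ^ 2 ∧
    ∀ n, t0 ≤ n → n ≤ t0 + m + 1 → |y n - xs F a (symOf s) n| ≤ 1 / 2 ^ d + 2 / 2 ^ d' := by
  have T := transit_tr F ha hs h0 h1 hpl hg hPhi hC1 hC2 hd hd' hy hu hv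
    (u := fun n => y n - xs F a (symOf s) n) (fun _ => rfl)
  have h3 : t0 + ((m + 1 : ℕ) : ℤ) = t0 + m + 1 := by push_cast; ring
  refine ⟨?_, ?_, ?_⟩
  · have h4 := T.U_last
    simp only [h3] at h4
    exact h4
  · have h4 := T.V_last
    simp only [h3] at h4
    have h5 : t0 + (m : ℤ) + 1 - 1 = t0 + m := by ring
    rw [h5] at h4
    exact h4
  · intro n hn hn'
    obtain ⟨k, hk⟩ := Int.eq_ofNat_of_zero_le (sub_nonneg.2 hn)
    have h5 : n = t0 + (k : ℤ) := by linarith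
    have h6 : k ≤ m + 1 := by
      have : (k : ℤ) ≤ m + 1 := by linarith
      exact_mod_cast this
    have h4 := T.U_le h6
    rw [h5]
    refine h4.trans (le_of_eq ?_)
    ring

end Pool.Agent.WildW
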